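import Pool.Agent.H332R3.Final2
import Pool.Agent.H332R3.Assem2

/-!
# An invariably generated group with a general type action on a hyperbolic space
-/

set_option autoImplicit false

namespace Pool.Agent.Results.MP_078bdc_al.InvGenGeneralType

/-- `G` is invariably generated: some subset `T` generates `G` after replacing each of its elements
by an arbitrary conjugate. -/
def InvariablyGenerated (G : Type) [Group G] : Prop :=
  ∃ T : Set G, ∀ f : T → G,
    Subgroup.closure (Set.range fun s : T => (f s)⁻¹ * (s : G) * f s) = ⊤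

/-- Geodesic metric space. -/
def GeodesicSpace (S : Type) [MetricSpace S] : Prop :=
  ∀ x y : S, ∃ γ : ℝ → S, γ 0 = x ∧ γ (dist x y) = y ∧
    ∀ s ∈ Set.Icc (0 : ℝ) (dist x y), ∀ t ∈ Set.Icc (0 : ℝ) (dist x y), dist (γ s) (γ t) = |s - t|

/-- Gromov product of `x` and `y` with base point `w`. -/
noncomputable def gromovProduct {S : Type} [MetricSpace S] (w x y : S) : ℝ :=
  (dist w x + dist w y - dist x y) / 2

/-- Gromov hyperbolicity (four point condition). -/
def GromovHyperbolic (S : Type) [MetricSpace S] : Prop :=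
  ∃ δ : ℝ, ∀ x y z w : S,
    min (gromovProduct w x y) (gromovProduct w y z) - δ ≤ gromovProduct w x z

/-- `g` is loxodromic: `n ↦ gⁿ s` is a quasi-isometric embedding of `ℤ`. -/
def Loxodromic {S : Type} [MetricSpace S] (g : S ≃ᵢ S) : Prop :=
  ∃ (s : S) (c : ℝ) (C : ℝ), 0 < c ∧ ∀ n m : ℤ,
    c * |(n : ℝ) - m| - C ≤ dist ((g ^ n) s) ((g ^ m) s) ∧
    dist ((g ^ n) s) ((g ^ m) s) ≤ C * |(n : ℝ) - m| + C

/-- For loxodromic `g`, `h` this says that their fixed point pairs on the Gromov boundary are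
disjoint: the Gromov products of the orbits of `g` and of `h` are bounded. -/
def Independent {S : Type} [MetricSpace S] (g h : S ≃ᵢ S) : Prop :=
  ∃ (s : S) (C : ℝ), ∀ n m : ℤ, gromovProduct s ((g ^ n) s) ((h ^ m) s) ≤ C

/-- The action `φ` is of general type. -/
def GeneralType {G S : Type} [Group G] [MetricSpace S] (φ : G →* (S ≃ᵢ S)) : Prop :=
  ∃ g h : G, Loxodromic (φ g) ∧ Loxodromic (φ h) ∧ Independent (φ g) (φ h)

lemma dist_zpow_le {S : Type} [MetricSpace S] (g : S ≃ᵢ S) (s : S) (n : ℤ) :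
    dist s ((g ^ n) s) ≤ dist s (g s) * |(n : ℝ)| := by
  have hnat : ∀ k : ℕ, dist s ((g ^ k) s) ≤ dist s (g s) * (k : ℝ) := by
    intro k
    induction k with
    | zero => simp
    | succ k ih =>
      have h1 : dist ((g ^ k) s) ((g ^ (k + 1)) s) = dist s (g s) := by
        rw [pow_succ]
        exact (g ^ k).isometry.dist_eq s (g s)
      have h2 := dist_triangle s ((g ^ k) s) ((g ^ (k + 1)) s)
      push_cast
      linarith
  rcases Int.le_total 0 n with hn | hn
  · obtain ⟨k, rfl⟩ := Int.eq_ofNat_of_zero_le hn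
    have := hnat k
    simpa using this
  · obtain ⟨k, hk⟩ := Int.eq_ofNat_of_zero_le (neg_nonneg.mpr hn)
    have hn' : n = -(k : ℤ) := by omega
    subst hn'
    have h1 : dist s ((g ^ (-(k : ℤ))) s) = dist s ((g ^ k) s) := by
      have h2 := (g ^ k).isometry.dist_eq s ((g ^ (-(k : ℤ))) s)
      have h3 : (g ^ k) ((g ^ (-(k : ℤ))) s) = s := by
        have h4 : (g ^ k) * (g ^ (-(k : ℤ))) = 1 := by
          rw [zpow_neg, zpow_natCast]; exact mul_inv_cancel _
        have h5 : ((g ^ k) * (g ^ (-(k : ℤ)))) s = s := by rw [h4]; rfl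
        exact h5
      rw [h3] at h2
      rw [← h2, dist_comm]
    rw [h1]
    have := hnat k
    simpa using this

lemma loxodromic_of {S : Type} [MetricSpace S] (g : S ≃ᵢ S) (s : S) (c : ℝ) (hc : 0 < c)
    (h : ∀ n : ℤ, c * |(n : ℝ)| ≤ dist s ((g ^ n) s)) : Loxodromic g := by
  refine ⟨s, c, dist s (g s), hc, fun n m => ?_⟩
  have h1 : dist ((g ^ n) s) ((g ^ m) s) = dist s ((g ^ (m - n)) s) := by
    have h2 := (g ^ n).isometry.dist_eq s ((g ^ (m - n)) s)
    have h3 : (g ^ n) ((g ^ (m - n)) s) = (g ^ m) s := by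
      have h4 : (g ^ n) * (g ^ (m - n)) = g ^ m := by
        rw [← zpow_add]; congr 1; ring
      rw [← h4]; rfl
    rw [h3] at h2; exact h2
  have h5 : |(n : ℝ) - m| = |((m - n : ℤ) : ℝ)| := by
    push_cast; rw [abs_sub_comm]
  have h6 := h (m - n)
  have h7 := dist_zpow_le g s (m - n)
  have h8 : 0 ≤ dist s (g s) := dist_nonneg
  rw [h1, h5]
  constructor <;> linarith

/-- There is an invariably generated group that admits an isometric action of general type on a
hyperbolic space. -/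
theorem result : ∃ (G : Type) (_ : Group G) (S : Type) (_ : MetricSpace S) (φ : G →* (S ≃ᵢ S)),
    InvariablyGenerated G ∧ GeodesicSpace S ∧ GromovHyperbolic S ∧ GeneralType φ := by
  obtain ⟨A⟩ := Pool.Agent.H332R3.exists_arith
  obtain ⟨S, mS, φ, hgeo, hhyp, g, h, x, c, hc, C, h1, h2⟩ :=
    Pool.Agent.H332R3.main_action A
  refine ⟨Pool.Agent.H332R3.G1 A, inferInstance, S, mS, φ, ?_, hgeo, hhyp, g, h,
    loxodromic_of _ x c hc (fun n => (h1 n).1), loxodromic_of _ x c hc (fun n => (h1 n).2),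
    x, C, h2⟩
  refine ⟨Set.univ, fun f => ?_⟩
  apply Pool.Agent.H332R3.G1_IG
  intro y
  refine ⟨(f ⟨y, Set.mem_univ y⟩)⁻¹, ?_⟩
  rw [inv_inv]
  exact Subgroup.subset_closure ⟨⟨y, Set.mem_univ y⟩, rfl⟩

end Pool.Agent.Results.MP_078bdc_al.InvGenGeneralType
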